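import Pool.Agent.H32.RQ.Targets

/-!
# The denominator for one vector
-/

set_option autoImplicit false

namespace Pool.Agent.H19.RQ

open Finset Pool.Agent.H32.RQ

theorem pf_CL2 : T_CL2 := by
  intro s x α hx h
  obtain ⟨a, ha⟩ := hx
  choose m hm using h
  have ha0 : ∑ j, (a j : ℚ) * x j = 1 := by exact_mod_cast ha
  refine ⟨∑ i, ∑ l, a i * a l * m i l, ?_⟩
  push_cast
  simp only [hm]
  have h2 : ∀ i, ∑ l, (a i : ℚ) * (a l : ℚ) * (α * x i * x l) = (a i : ℚ) * x i * α := by
    intro i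
    have h3 : ∀ l, (a i : ℚ) * (a l : ℚ) * (α * x i * x l) =
        (a i : ℚ) * x i * α * (a l * x l) := by
      intro l
      ring
    simp only [h3]
    rw [← Finset.mul_sum, ha0, mul_one]
  simp only [h2]
  rw [← Finset.sum_mul, ha0, one_mul]

end Pool.Agent.H19.RQ
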