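import Pool.Agent.H32.RQ.Targets

/-!
# The denominators
-/

set_option autoImplicit false

namespace Pool.Agent.H19.RQ

open Finset Pool.Agent.H32.RQ

/-- Bezout for the minors -/
lemma bez {s : ℕ} (x y : Fin s → ℤ) : ∃ c : Fin s × Fin s → ℤ,
    ∑ p, c p * mnr x y p.1 p.2 = gm x y := by
  obtain ⟨d, hd⟩ : ∃ d : ℤ, Ideal.span (Set.range fun p : Fin s × Fin s => mnr x y p.1 p.2) =
      Ideal.span {d} := (IsPrincipalIdealRing.principal _).principal
  have h1 : ∀ p : Fin s × Fin s, d ∣ mnr x y p.1 p.2 := by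
    intro p
    rw [← Ideal.mem_span_singleton, ← hd]
    exact Ideal.subset_span ⟨p, rfl⟩
  have h2 : d.natAbs ∣ gm x y := Finset.dvd_gcd fun p _ => Int.natAbs_dvd_natAbs.2 (h1 p)
  have h3 : d ∣ (gm x y : ℤ) := by
    rw [← Int.natAbs_dvd]
    exact_mod_cast h2
  rw [← Ideal.mem_span_singleton, ← hd] at h3
  exact Ideal.mem_span_range_iff_exists_fun.1 h3

lemma isint_sum {ι : Type} (s : Finset ι) (f : ι → ℚ) (h : ∀ i ∈ s, ∃ m : ℤ, (m : ℚ) = f i) :
    ∃ m : ℤ, (m : ℚ) = ∑ i ∈ s, f i := by
  classical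
  induction s using Finset.induction_on with
  | empty => exact ⟨0, by simp⟩
  | insert a s ha ih =>
    obtain ⟨m, hm⟩ := ih fun i hi => h i (Finset.mem_insert_of_mem hi)
    obtain ⟨m', hm'⟩ := h a (Finset.mem_insert_self _ _)
    refine ⟨m' + m, ?_⟩
    rw [Finset.sum_insert ha]
    push_cast
    rw [hm, hm']

/-- one half -/
lemma half {s : ℕ} {x y : Fin s → ℤ} {α β : ℚ} {g : ℤ} (hy : Prm y)
    (h : ∀ i l, ∃ m : ℤ, (m : ℚ) = α * x i * x l + β * y i * y l) {a : Fin s → ℤ}
    (ha : ∑ j, a j * x j = 0) (ha' : ∑ j, a j * y j = g) : ∃ m : ℤ, (g : ℚ) * β = m := by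
  obtain ⟨b, hb⟩ := hy
  have h1 : ∃ m : ℤ, (m : ℚ) = ∑ i, ∑ l, (b i : ℚ) * (a l : ℚ) *
      (α * x i * x l + β * y i * y l) := by
    apply isint_sum
    intro i _
    apply isint_sum
    intro l _
    obtain ⟨m, hm⟩ := h i l
    refine ⟨b i * a l * m, ?_⟩
    push_cast
    rw [hm]
  obtain ⟨m, hm⟩ := h1
  refine ⟨m, ?_⟩
  rw [hm]
  have ha0 : ∑ j, (a j : ℚ) * x j = 0 := by exact_mod_cast ha
  have ha1 : ∑ j, (a j : ℚ) * y j = g := by exact_mod_cast ha'
  have hb1 : ∑ j, (b j : ℚ) * y j = 1 := by exact_mod_cast hb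
  have h2 : ∀ i, ∑ l, (b i : ℚ) * (a l : ℚ) * (α * x i * x l + β * y i * y l) =
      (b i : ℚ) * y i * (β * g) := by
    intro i
    have h3 : ∀ l, (b i : ℚ) * (a l : ℚ) * (α * x i * x l + β * y i * y l) =
        (b i : ℚ) * α * x i * (a l * x l) + (b i : ℚ) * y i * β * (a l * y l) := by
      intro l
      ring
    simp only [h3]
    rw [Finset.sum_add_distrib, ← Finset.mul_sum, ← Finset.mul_sum, ha0, ha1]
    ring
  simp only [h2]
  rw [← Finset.sum_mul, hb1]
  ring

theorem pf_CLS : T_CLS := by
  intro s x y α β hx hy _ h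
  obtain ⟨c, hc⟩ := bez x y
  rw [Fintype.sum_prod_type] at hc
  simp only at hc
  constructor
  · refine half (x := y) (y := x) (α := β) (β := α) (g := gm x y) hx ?_
      (a := fun j => ∑ i, (c (j, i) - c (i, j)) * y i) ?_ ?_
    · intro i l
      obtain ⟨m, hm⟩ := h i l
      exact ⟨m, by rw [hm]; ring⟩
    · have h1 : ∑ j, (∑ i, (c (j, i) - c (i, j)) * y i) * y j =
          ∑ j, ∑ i, c (j, i) * y i * y j - ∑ j, ∑ i, c (i, j) * y i * y j := by
        rw [← Finset.sum_sub_distrib]
        apply Finset.sum_congr rfl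
        intro j _
        rw [← Finset.sum_sub_distrib, Finset.sum_mul]
        apply Finset.sum_congr rfl
        intro i _
        ring
      rw [h1, Finset.sum_comm (f := fun j i => c (i, j) * y i * y j), sub_eq_zero]
      apply Finset.sum_congr rfl
      intro j _
      apply Finset.sum_congr rfl
      intro i _
      ring
    · rw [← hc]
      have h1 : ∑ j, (∑ i, (c (j, i) - c (i, j)) * y i) * x j =
          ∑ j, ∑ i, c (j, i) * y i * x j - ∑ j, ∑ i, c (i, j) * y i * x j := by
        rw [← Finset.sum_sub_distrib]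
        apply Finset.sum_congr rfl
        intro j _
        rw [← Finset.sum_sub_distrib, Finset.sum_mul]
        apply Finset.sum_congr rfl
        intro i _
        ring
      rw [h1, Finset.sum_comm (f := fun j i => c (i, j) * y i * x j), ← Finset.sum_sub_distrib]
      apply Finset.sum_congr rfl
      intro j _
      rw [← Finset.sum_sub_distrib]
      apply Finset.sum_congr rfl
      intro i _
      unfold mnr
      ring
  · refine half (x := x) (y := y) (α := α) (β := β) (g := gm x y) hy h
      (a := fun j => ∑ i, (c (i, j) - c (j, i)) * x i) ?_ ?_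
    · have h1 : ∑ j, (∑ i, (c (i, j) - c (j, i)) * x i) * x j =
          ∑ j, ∑ i, c (i, j) * x i * x j - ∑ j, ∑ i, c (j, i) * x i * x j := by
        rw [← Finset.sum_sub_distrib]
        apply Finset.sum_congr rfl
        intro j _
        rw [← Finset.sum_sub_distrib, Finset.sum_mul]
        apply Finset.sum_congr rfl
        intro i _
        ring
      rw [h1, Finset.sum_comm (f := fun j i => c (i, j) * x i * x j), sub_eq_zero]
      apply Finset.sum_congr rfl
      intro j _
      apply Finset.sum_congr rfl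
      intro i _
      ring
    · rw [← hc]
      have h1 : ∑ j, (∑ i, (c (i, j) - c (j, i)) * x i) * y j =
          ∑ j, ∑ i, c (i, j) * x i * y j - ∑ j, ∑ i, c (j, i) * x i * y j := by
        rw [← Finset.sum_sub_distrib]
        apply Finset.sum_congr rfl
        intro j _
        rw [← Finset.sum_sub_distrib, Finset.sum_mul]
        apply Finset.sum_congr rfl
        intro i _
        ring
      rw [h1, Finset.sum_comm (f := fun j i => c (i, j) * x i * y j), ← Finset.sum_sub_distrib]
      apply Finset.sum_congr rfl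
      intro j _
      rw [← Finset.sum_sub_distrib]
      apply Finset.sum_congr rfl
      intro i _
      unfold mnr
      ring

end Pool.Agent.H19.RQ
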