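import Pool.Agent.H32.RQ.Targets

/-!
# Dependent vectors
-/

set_option autoImplicit false

namespace Pool.Agent.H19.RQ

open Finset Pool.Agent.H32.RQ

lemma dep_aux {s : ℕ} {x y : Fin s → ℤ} (h : ∀ i j, mnr x y i j = 0) {a : Fin s → ℤ}
    (ha : ∑ i, a i * x i = 1) (j : Fin s) : y j = (∑ i, a i * y i) * x j := by
  have h1 : ∑ i, a i * mnr x y i j = 0 := Finset.sum_eq_zero fun i _ => by rw [h, mul_zero]
  have h2 : ∑ i, a i * mnr x y i j = (∑ i, a i * x i) * y j - (∑ i, a i * y i) * x j := by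
    rw [Finset.sum_mul, Finset.sum_mul, ← Finset.sum_sub_distrib]
    apply Finset.sum_congr rfl
    intro i _
    unfold mnr
    ring
  rw [h2, ha] at h1
  linarith

theorem pf_DEP : T_DEP := by
  intro s x y hx hy hd
  obtain ⟨a, ha⟩ := hx
  obtain ⟨b, hb⟩ := hy
  have h : ∀ i j, mnr x y i j = 0 := by
    intro i j
    have h1 : (mnr x y i j).natAbs ≤ dm x y :=
      Finset.le_sup (f := fun p : Fin s × Fin s => (mnr x y p.1 p.2).natAbs)
        (Finset.mem_univ ((i, j) : Fin s × Fin s))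
    rw [hd] at h1
    omega
  have h' : ∀ i j, mnr y x i j = 0 := by
    intro i j
    have h1 := h j i
    unfold mnr at h1 ⊢
    linarith
  obtain ⟨r, hr⟩ : ∃ r, r = ∑ i, a i * y i := ⟨_, rfl⟩
  obtain ⟨r', hr'⟩ : ∃ r', r' = ∑ i, b i * x i := ⟨_, rfl⟩
  have h1 : ∀ j, y j = r * x j := fun j => by rw [hr]; exact dep_aux h ha j
  have h2 : ∀ j, x j = r' * y j := fun j => by rw [hr']; exact dep_aux h' hb j
  have h3 : r' * r = 1 := by
    rw [← ha, hr, Finset.mul_sum]
    apply Finset.sum_congr rfl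
    intro i _
    rw [h2 i]
    ring
  rcases Int.isUnit_iff.1 (IsUnit.of_mul_eq_one_right r' h3) with h4 | h4
  · left
    funext j
    rw [h1 j, h4, one_mul]
  · right
    funext j
    rw [h1 j, h4]
    simp

end Pool.Agent.H19.RQ
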