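import Pool.Agent.H95.RQ.Targets2

/-!
# (EXT) a finite set of primes outside of which nothing is ramified and which generates the classes
-/

set_option autoImplicit false

open NumberField NumberField.InfinitePlace IsDedekindDomain
open scoped nonZeroDivisors

namespace Pool.Agent.H19.RQ

open Pool.Agent.H95.RQ Pool.Agent.H28.RC

/-- finitely many primes generate the class group -/
lemma cls_gen (K : Type) [Field K] [NumberField K] :
    ∃ S : Set (HeightOneSpectrum (𝓞 K)), S.Finite ∧ ∀ I : Ideal (𝓞 K), I ≠ ⊥ →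
      ∃ (J : Ideal (𝓞 K)) (a : 𝓞 K), a ≠ 0 ∧
        (∀ P : HeightOneSpectrum (𝓞 K), P ∉ S → ¬ J ≤ P.asIdeal) ∧ I * J = Ideal.span {a} := by
  have hsurj := ClassGroup.mk0_surjective (R := 𝓞 K)
  choose J hJ using fun c : ClassGroup (𝓞 K) => hsurj c⁻¹
  refine ⟨⋃ c, {P | P.asIdeal ∣ (J c : Ideal (𝓞 K))}, Set.finite_iUnion fun c =>
    Ideal.finite_factors (nonZeroDivisors.coe_ne_zero (J c)), fun I hI => ?_⟩
  let I' : (Ideal (𝓞 K))⁰ := ⟨I, mem_nonZeroDivisors_iff_ne_zero.2 hI⟩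
  have h1 : ClassGroup.mk0 (I' * J (ClassGroup.mk0 I')) = 1 := by
    rw [map_mul, hJ, mul_inv_cancel]
  have h2 := (ClassGroup.mk0_eq_one_iff (I' * J (ClassGroup.mk0 I')).2).1 h1
  obtain ⟨a, ha⟩ := h2.principal
  have ha' : I * (J (ClassGroup.mk0 I') : Ideal (𝓞 K)) = Ideal.span {a} := ha
  refine ⟨J (ClassGroup.mk0 I'), a, ?_, fun P hP hle => hP ?_, ha'⟩
  · rintro rfl
    rw [Ideal.span_singleton_eq_bot.2 rfl] at ha'
    have h3 : I * (J (ClassGroup.mk0 I') : Ideal (𝓞 K)) ≠ 0 :=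
      mul_ne_zero hI (nonZeroDivisors.coe_ne_zero _)
    exact h3 ha'
  · exact Set.mem_iUnion.2 ⟨_, Ideal.dvd_iff_le.2 hle⟩

section

variable (F E : Type) [Field F] [NumberField F] [Field E] [NumberField E] [Algebra F E]

/-- the prime below -/
noncomputable def unP (Q : HeightOneSpectrum (𝓞 E)) : HeightOneSpectrum (𝓞 F) where
  asIdeal := Q.asIdeal.under (𝓞 F)
  isPrime := by
    have := Q.isPrime
    infer_instance
  ne_bot := Ideal.under_ne_bot (𝓞 F) Q.ne_bot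

/-- unramified primes -/
lemma val_eq_of_not_dvd (P : HeightOneSpectrum (𝓞 F)) (Q : Ab F E P)
    (h : ¬ Q.1.asIdeal ∣ differentIdeal (𝓞 F) (𝓞 E)) (x : F) :
    Q.1.valuation E (algebraMap F E x) = P.valuation F x := by
  have hL : Q.1.asIdeal.LiesOver P.asIdeal := ⟨Q.2.symm⟩
  have hQ := Q.1.isPrime
  have hP := P.isPrime
  have h1 : Algebra.IsUnramifiedAt (𝓞 F) Q.1.asIdeal := not_dvd_differentIdeal_iff.1 h
  let := Localization.AtPrime.algebraOfLiesOver P.asIdeal Q.1.asIdeal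
  have h2 := ((Algebra.isUnramifiedAt_iff_map_eq (p := P.asIdeal) _ _).1 h1).2
  have h3 : P.asIdeal.ramificationIdx' Q.1.asIdeal = 1 :=
    (Ideal.IsDedekindDomain.ramificationIdx'_eq_one_iff Q.1.ne_bot
      (Ideal.map_le_iff_le_comap.2 (le_of_eq Q.2.symm))).2 h2
  rw [← HeightOneSpectrum.valuation_liesOver E P Q.1 x, h3, pow_one]

end

theorem pf_EXT : T_EXT := by
  classical
  intro F E _ _ _ _ _ T₀
  obtain ⟨S₁, hS₁, h1⟩ := cls_gen F
  obtain ⟨S₂, hS₂, h2⟩ := cls_gen E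
  have hD : differentIdeal (𝓞 F) (𝓞 E) ≠ ⊥ := differentIdeal_ne_bot
  have hS₃ : {Q : HeightOneSpectrum (𝓞 E) | Q.asIdeal ∣ differentIdeal (𝓞 F) (𝓞 E)}.Finite :=
    Ideal.finite_factors hD
  refine ⟨T₀ ∪ (hS₁.toFinset ∪ ((hS₂.toFinset).image (unP F E) ∪
    (hS₃.toFinset).image (unP F E))), Finset.subset_union_left, ?_, ?_, ?_⟩
  · intro P Q hP x
    refine val_eq_of_not_dvd F E P Q (fun hdvd => hP ?_) x
    simp only [Finset.mem_union, Finset.mem_image, Set.Finite.mem_toFinset]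
    exact Or.inr (Or.inr (Or.inr ⟨Q.1, hdvd, HeightOneSpectrum.ext Q.2⟩))
  · intro I hI
    obtain ⟨J, a, ha, hJ, hIJ⟩ := h1 I hI
    refine ⟨J, a, ha, fun P hP => hJ P fun hPS => hP ?_, hIJ⟩
    simp only [Finset.mem_union, Finset.mem_image, Set.Finite.mem_toFinset]
    exact Or.inr (Or.inl hPS)
  · intro I hI
    obtain ⟨J, a, ha, hJ, hIJ⟩ := h2 I hI
    refine ⟨J, a, ha, fun Q hQ => hJ Q fun hQS => hQ ⟨unP F E Q, ?_, rfl⟩, hIJ⟩
    simp only [Finset.mem_union, Finset.mem_image, Set.Finite.mem_toFinset]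
    exact Or.inr (Or.inr (Or.inl ⟨Q, hQS, rfl⟩))

end Pool.Agent.H19.RQ
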