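import Pool.Agent.H95.RQ.Targets2

/-!
# (NMN) the norm and the fixed points for a cyclic extension
-/

set_option autoImplicit false

open NumberField NumberField.InfinitePlace IsDedekindDomain

namespace Pool.Agent.H19.RQ

open Pool.Agent.H95.RQ Pool.Agent.H28.RC

section

variable {F E : Type} [Field F] [Field E] [Algebra F E]

lemma us_iter (σ : E ≃ₐ[F] E) (i : ℕ) (x : Eˣ) : (((us σ)^[i] x : Eˣ) : E) = (σ ^ i) (x : E) := by
  induction i with
  | zero => simp
  | succ i ih =>
    rw [Function.iterate_succ_apply', pow_succ', AlgEquiv.mul_apply, ← ih]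
    rfl

end

theorem pf_NMN : T_NMN := by
  classical
  intro F E _ _ _ _ _ _ σ hσ
  have hfd : FiniteDimensional F E := Module.Finite.of_restrictScalars_finite ℚ F E
  have hord : orderOf σ = Module.finrank F E := by
    rw [orderOf_eq_card_of_forall_mem_zpowers hσ]
    exact IsGalois.card_aut_eq_finrank F E
  have h1 : σ ^ Module.finrank F E = 1 := by
    rw [← hord]
    exact pow_orderOf_eq_one σ
  refine ⟨h1, fun x => ?_, fun x => ?_, fun x hx => ?_⟩
  · apply Units.ext
    rw [us_iter, h1]
    rfl
  · have h2 : ((nm (us σ) (Module.finrank F E) x : Eˣ) : E) =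
        ∏ i ∈ Finset.range (Module.finrank F E), (σ ^ i) (x : E) := by
      show ((∏ i ∈ Finset.range (Module.finrank F E), (us σ)^[i] x : Eˣ) : E) = _
      rw [Units.coe_prod]
      exact Finset.prod_congr rfl fun i _ => us_iter σ i x
    rw [h2, Algebra.norm_eq_prod_automorphisms, ← IsCyclic.image_range_orderOf hσ, hord,
      Finset.prod_image]
    intro i hi j hj hij
    simp only [Finset.coe_range, Set.mem_Iio] at hi hj
    rw [← hord] at hi hj
    exact pow_injOn_Iio_orderOf hi hj hij
  · have hx' : σ (x : E) = (x : E) := congrArg Units.val hx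
    have h2 : ∀ g : E ≃ₐ[F] E, g (x : E) = (x : E) := by
      intro g
      have h3 : Subgroup.zpowers σ ≤ MulAction.stabilizer (E ≃ₐ[F] E) (x : E) := by
        rw [Subgroup.zpowers_le, MulAction.mem_stabilizer_iff]
        exact hx'
      exact MulAction.mem_stabilizer_iff.1 (h3 (hσ g))
    obtain ⟨a, ha⟩ := (IsGalois.mem_range_algebraMap_iff_fixed (x : E)).2 h2
    have ha0 : a ≠ 0 := by
      rintro rfl
      rw [map_zero] at ha
      exact x.ne_zero ha.symm
    exact ⟨Units.mk0 a ha0, ha.symm⟩

end Pool.Agent.H19.RQ
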