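import Pool.Agent.H32.RQ.Targets

/-!
# The number of pairs with small minors
-/

set_option autoImplicit false

namespace Pool.Agent.H19.RQ

open Finset Pool.Agent.H32.RQ

lemma prod_one {s : ℕ} (i : Fin s) (k : ℕ) :
    ∏ j : Fin s, (if j = i then 1 else k) = k ^ (s - 1) := by
  classical
  rw [← Finset.mul_prod_erase _ _ (Finset.mem_univ i), if_pos rfl, one_mul]
  rw [Finset.prod_congr rfl (g := fun _ => k)]
  · rw [Finset.prod_const, Finset.card_erase_of_mem (Finset.mem_univ i), Finset.card_univ,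
      Fintype.card_fin]
  · intro j hj
    rw [if_neg (Finset.ne_of_mem_erase hj)]

theorem pf_PAI (hPA1 : T_PA1) : T_PAI := by
  classical
  intro s i B D
  -- the fibres
  have hK : ∀ p : ℤ × ℤ, ∃ K : Finset (ℤ × ℤ), p.1 ≠ 0 → Int.gcd p.1 p.2 ≤ D →
      (∀ q : ℤ × ℤ, |q.1| ≤ |p.1| → |p.1 * q.2 - p.2 * q.1| ≤ D → q ∈ K) ∧ K.card ≤ 9 * D := by
    intro p
    by_cases hp : p.1 ≠ 0 ∧ Int.gcd p.1 p.2 ≤ D
    · obtain ⟨h1, h2⟩ := hPA1 p.1 p.2 D hp.1 hp.2
      refine ⟨h1.toFinset, fun _ _ => ⟨?_, ?_⟩⟩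
      · intro q hq1 hq2
        rw [Set.Finite.mem_toFinset]
        exact ⟨hq1, hq2⟩
      · rw [← Set.ncard_eq_toFinset_card _ h1]
        exact h2
    · exact ⟨∅, fun h1 h2 => absurd ⟨h1, h2⟩ hp⟩
  choose K hK using hK
  let P : Finset (ℤ × ℤ) := ((Finset.Icc (-(B : ℤ)) B).erase 0 ×ˢ Finset.Ico (0 : ℤ) B).filter
    fun p => Int.gcd p.1 p.2 ≤ D
  let G : ℤ × ℤ → Finset ((Fin s → ℤ) × (Fin s → ℤ)) := fun p =>
    (Fintype.piFinset fun j => if j = i then ({p} : Finset (ℤ × ℤ)) else K p).image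
      fun r => (fun j => (r j).1, fun j => (r j).2)
  have hsub : {q : (Fin s → ℤ) × (Fin s → ℤ) | q.1 i ≠ 0 ∧ |q.1 i| ≤ B ∧
      (∀ j, |q.1 j| ≤ |q.1 i|) ∧ 0 ≤ q.2 i ∧ q.2 i < |q.1 i| ∧
      (∀ j, |mnr q.1 q.2 i j| ≤ D) ∧ ∃ j, mnr q.1 q.2 i j ≠ 0} ⊆
      ((P.biUnion G : Finset ((Fin s → ℤ) × (Fin s → ℤ))) :
        Set ((Fin s → ℤ) × (Fin s → ℤ))) := by
    rintro q ⟨h1, h2, h3, h4, h5, h6, j0, h7⟩
    have hg : Int.gcd (q.1 i) (q.2 i) ≤ D := by
      have h8 : (Int.gcd (q.1 i) (q.2 i) : ℤ) ∣ mnr q.1 q.2 i j0 := by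
        unfold mnr
        apply dvd_sub
        · exact Dvd.dvd.mul_right (Int.gcd_dvd_left _ _) _
        · exact Dvd.dvd.mul_left (Int.gcd_dvd_right _ _) _
      have h9 := Int.le_of_dvd (abs_pos.2 h7) ((dvd_abs _ _).2 h8)
      have h10 := h6 j0
      omega
    rw [Finset.mem_coe, Finset.mem_biUnion]
    refine ⟨(q.1 i, q.2 i), ?_, ?_⟩
    · rw [Finset.mem_filter, Finset.mem_product, Finset.mem_erase, Finset.mem_Icc, Finset.mem_Ico]
      have h11 := abs_le.1 h2
      exact ⟨⟨⟨h1, h11.1, h11.2⟩, h4, by dsimp only; omega⟩, hg⟩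
    · rw [Finset.mem_image]
      refine ⟨fun j => (q.1 j, q.2 j), ?_, rfl⟩
      rw [Fintype.mem_piFinset]
      intro j
      split_ifs with hj
      · rw [hj]
        exact Finset.mem_singleton_self _
      · refine (hK (q.1 i, q.2 i) h1 hg).1 (q.1 j, q.2 j) (h3 j) ?_
        have h12 := h6 j
        unfold mnr at h12
        have e : q.1 i * q.2 j - q.2 i * q.1 j = q.1 i * q.2 j - q.1 j * q.2 i := by ring
        dsimp only
        rw [e]
        exact h12
  have hcard : (P.biUnion G).card ≤ 2 * B ^ 2 * (9 * D) ^ (s - 1) := by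
    have h1 : ∀ p ∈ P, (G p).card ≤ (9 * D) ^ (s - 1) := by
      intro p hp
      rw [Finset.mem_filter, Finset.mem_product, Finset.mem_erase] at hp
      have h2 := (hK p hp.1.1.1 hp.2).2
      refine Finset.card_image_le.trans ?_
      rw [Fintype.card_piFinset]
      have h3 : ∀ j : Fin s, (if j = i then ({p} : Finset (ℤ × ℤ)) else K p).card =
          if j = i then 1 else (K p).card := by
        intro j
        split_ifs <;> simp
      simp only [h3]
      rw [prod_one]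
      exact Nat.pow_le_pow_left h2 _
    refine (Finset.card_biUnion_le_card_mul _ _ _ h1).trans ?_
    apply Nat.mul_le_mul_right
    refine (Finset.card_filter_le _ _).trans ?_
    rw [Finset.card_product, Finset.card_erase_of_mem, Int.card_Icc, Int.card_Ico]
    · have h2 : ((B : ℤ) + 1 - -(B : ℤ)).toNat - 1 = 2 * B := by omega
      have h3 : ((B : ℤ) - 0).toNat = B := by omega
      rw [h2, h3]
      apply le_of_eq
      ring
    · rw [Finset.mem_Icc]
      omega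
  refine ⟨(P.biUnion G).finite_toSet.subset hsub, ?_⟩
  refine (Set.ncard_le_ncard hsub (P.biUnion G).finite_toSet).trans ?_
  rw [Set.ncard_coe_finset]
  exact hcard

end Pool.Agent.H19.RQ
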