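import Mathlib

/-!
# A map from a permutation module to a group with valuations
-/

set_option autoImplicit false

namespace Pool.Agent.H19.RQ

variable {A W Y : Type} [CommGroup A] [Fintype W] [Fintype Y]

/-- the map of the permutation module -/
def phi (u : W → A) (p : Y → A) : ((W ⊕ Y) → Multiplicative ℤ) →* A × Multiplicative ℤ where
  toFun c := ((∏ w, u w ^ (c (Sum.inl w)).toAdd) * ∏ y, p y ^ (c (Sum.inr y)).toAdd,
    ∏ w, c (Sum.inl w))
  map_one' := by simp
  map_mul' c d := by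
    ext1
    · simp only [Pi.mul_apply, toAdd_mul, zpow_add, Finset.prod_mul_distrib, Prod.mk_mul_mk]
      exact mul_mul_mul_comm _ _ _ _
    · simp only [Pi.mul_apply, Finset.prod_mul_distrib, Prod.mk_mul_mk]

/-- the part at `W` -/
def phiW (u : W → A) : (W → Multiplicative ℤ) →* A × Multiplicative ℤ where
  toFun c := (∏ w, u w ^ (c w).toAdd, ∏ w, c w)
  map_one' := by simp
  map_mul' c d := by
    ext1
    · simp only [Pi.mul_apply, toAdd_mul, zpow_add, Finset.prod_mul_distrib, Prod.mk_mul_mk]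
    · simp only [Pi.mul_apply, Finset.prod_mul_distrib, Prod.mk_mul_mk]

lemma phi_equi {u : W → A} {p : Y → A} (πW : Equiv.Perm W) (πY : Equiv.Perm Y) (s : A →* A)
    (hu : ∀ w, u (πW w) = s (u w)) (hp : ∀ y, p (πY y) = s (p y))
    (c : (W ⊕ Y) → Multiplicative ℤ) :
    phi u p (fun x => c ((Equiv.sumCongr πW πY).symm x)) =
      (s.prodMap (MonoidHom.id _)) (phi u p c) := by
  have h1 : ∏ w, u w ^ (c (Sum.inl (πW.symm w))).toAdd = ∏ w, s (u w) ^ (c (Sum.inl w)).toAdd := by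
    rw [← Equiv.prod_comp πW]
    refine Finset.prod_congr rfl fun w _ => ?_
    rw [Equiv.symm_apply_apply, hu]
  have h2 : ∏ y, p y ^ (c (Sum.inr (πY.symm y))).toAdd = ∏ y, s (p y) ^ (c (Sum.inr y)).toAdd := by
    rw [← Equiv.prod_comp πY]
    refine Finset.prod_congr rfl fun y _ => ?_
    rw [Equiv.symm_apply_apply, hp]
  have h3 : ∏ w, c (Sum.inl (πW.symm w)) = ∏ w, c (Sum.inl w) :=
    Equiv.prod_comp πW.symm fun w => c (Sum.inl w)
  have h4 : s ((∏ w, u w ^ (c (Sum.inl w)).toAdd) * ∏ y, p y ^ (c (Sum.inr y)).toAdd) =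
      (∏ w, s (u w) ^ (c (Sum.inl w)).toAdd) * ∏ y, s (p y) ^ (c (Sum.inr y)).toAdd := by
    rw [map_mul, map_prod, map_prod]
    simp only [map_zpow]
  ext1
  · show (∏ w, u w ^ (c (Sum.inl (πW.symm w))).toAdd) *
      ∏ y, p y ^ (c (Sum.inr (πY.symm y))).toAdd = s _
    rw [h1, h2]
    exact h4.symm
  · exact h3

section
variable {u : W → A} {p : Y → A} {v : Y → A →* Multiplicative ℤ}

lemma v_phi [DecidableEq Y] (hu : ∀ y w, v y (u w) = 1) (hp' : ∀ y y', y' ≠ y → v y' (p y) = 1)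
    (c : (W ⊕ Y) → Multiplicative ℤ) (y : Y) :
    v y (phi u p c).1 = v y (p y) ^ (c (Sum.inr y)).toAdd := by
  show v y ((∏ w, u w ^ (c (Sum.inl w)).toAdd) * ∏ y, p y ^ (c (Sum.inr y)).toAdd) = _
  rw [map_mul, map_prod, map_prod]
  have h1 : ∏ w, v y (u w ^ (c (Sum.inl w)).toAdd) = 1 :=
    Finset.prod_eq_one fun w _ => by rw [map_zpow, hu, one_zpow]
  rw [h1, one_mul, Finset.prod_eq_single y]
  · rw [map_zpow]
  · intro y' _ hne
    rw [map_zpow, hp' y' y hne.symm, one_zpow]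
  · intro h
    exact absurd (Finset.mem_univ y) h

lemma phi_inj (hu : ∀ y w, v y (u w) = 1) (hp : ∀ y, v y (p y) ≠ 1)
    (hp' : ∀ y y', y' ≠ y → v y' (p y) = 1) (hW : Function.Injective (phiW u)) :
    Function.Injective (phi u p) := by
  classical
  rw [injective_iff_map_eq_one]
  intro c hc
  have h1 : ∀ y, c (Sum.inr y) = 1 := by
    intro y
    have h2 := v_phi hu hp' c y
    rw [hc, Prod.fst_one, map_one] at h2
    have h3 := congrArg Multiplicative.toAdd h2
    rw [toAdd_one, toAdd_zpow, smul_eq_mul] at h3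
    have h4 : (v y (p y)).toAdd ≠ 0 := fun h => hp y (Multiplicative.toAdd.injective h)
    have h5 := (mul_eq_zero.1 h3.symm).resolve_right h4
    exact Multiplicative.toAdd.injective h5
  have h6 : phiW u (fun w => c (Sum.inl w)) = phi u p c := by
    ext1
    · show _ = _ * ∏ y, p y ^ (c (Sum.inr y)).toAdd
      simp only [h1, toAdd_one, zpow_zero, Finset.prod_const_one, mul_one]
      rfl
    · rfl
  rw [hc] at h6
  have h7 := (injective_iff_map_eq_one (phiW u)).1 hW _ h6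
  funext x
  rcases x with w | y
  · exact congrFun h7 w
  · exact h1 y

lemma phi_idx (C0 C : Subgroup A) (hC0 : ∀ x, x ∈ C0 ↔ x ∈ C ∧ ∀ y, v y x = 1)
    (hu : ∀ w, u w ∈ C0) (hpC : ∀ y, p y ∈ C) (hp : ∀ y, v y (p y) ≠ 1)
    (hp' : ∀ y y', y' ≠ y → v y' (p y) = 1)
    (hW : (phiW u).range.relIndex (C0.prod ⊤) ≠ 0) :
    (phi u p).range ≤ C.prod ⊤ ∧ (phi u p).range.relIndex (C.prod ⊤) ≠ 0 := by
  classical
  have huC : ∀ w, u w ∈ C := fun w => ((hC0 _).1 (hu w)).1
  have hu1 : ∀ y w, v y (u w) = 1 := fun y w => ((hC0 _).1 (hu w)).2 y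
  have hle : (phi u p).range ≤ C.prod ⊤ := by
    rintro _ ⟨c, rfl⟩
    refine ⟨?_, trivial⟩
    exact C.mul_mem (C.prod_mem fun w _ => C.zpow_mem (huC w) _)
      (C.prod_mem fun y _ => C.zpow_mem (hpC y) _)
  refine ⟨hle, ?_⟩
  have hle0 : C0.prod ⊤ ≤ C.prod (⊤ : Subgroup (Multiplicative ℤ)) := by
    rintro x ⟨h1, h2⟩
    exact ⟨((hC0 _).1 h1).1, h2⟩
  have hWle : (phiW u).range ≤ (phi u p).range := by
    rintro _ ⟨c, rfl⟩
    refine ⟨fun x => Sum.elim c (fun _ => 1) x, ?_⟩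
    ext1
    · show _ * ∏ y, p y ^ (0 : ℤ) = _
      simp only [zpow_zero, Finset.prod_const_one, mul_one]
      rfl
    · rfl
  -- the valuations modulo the values at the `p y`
  let k : Y → ℕ := fun y => ((v y (p y)).toAdd).natAbs
  have hk : ∀ y, NeZero (k y) := fun y => ⟨by
    rw [Ne, Int.natAbs_eq_zero]
    exact fun h => hp y (Multiplicative.toAdd.injective h)⟩
  let q : A × Multiplicative ℤ →* ((y : Y) → Multiplicative (ZMod (k y))) :=
    { toFun := fun x y => Multiplicative.ofAdd (((v y x.1).toAdd : ℤ) : ZMod (k y))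
      map_one' := by
        funext y
        simp
      map_mul' := by
        intro a b
        funext y
        simp }
  have hfin : Finite ((y : Y) → Multiplicative (ZMod (k y))) := by
    have : ∀ y, Finite (Multiplicative (ZMod (k y))) := fun y =>
      inferInstanceAs (Finite (ZMod (k y)))
    infer_instance
  have hker : q.ker.FiniteIndex := inferInstance
  have hkrel : q.ker.relIndex (C.prod ⊤) ≠ 0 :=
    (inferInstance : (q.ker.subgroupOf (C.prod ⊤)).FiniteIndex).index_ne_zero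
  rw [← Subgroup.inf_relIndex_right] at hkrel
  have hsub : q.ker ⊓ C.prod ⊤ ≤ C0.prod ⊤ ⊔ (phi u p).range := by
    rintro x ⟨hx1, hx2, -⟩
    have h1 : ∀ y, ∃ a : ℤ, (v y x.1).toAdd = (v y (p y)).toAdd * a := by
      intro y
      have h2 := congrFun (MonoidHom.mem_ker.1 hx1) y
      have h3 : ((((v y x.1).toAdd : ℤ) : ZMod (k y))) = 0 :=
        Multiplicative.ofAdd.injective h2
      rw [ZMod.intCast_zmod_eq_zero_iff_dvd] at h3
      exact Int.natAbs_dvd.1 h3
    choose a ha using h1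
    have h4 : ∀ y, v y (phi u p (Sum.elim (fun _ => 1) fun y => Multiplicative.ofAdd (a y))).1 =
        v y x.1 := by
      intro y
      rw [v_phi hu1 hp']
      apply Multiplicative.toAdd.injective
      rw [toAdd_zpow, ha, smul_eq_mul, mul_comm]
      rfl
    have h5 : x = (x / phi u p (Sum.elim (fun _ => 1) fun y => Multiplicative.ofAdd (a y))) *
        phi u p (Sum.elim (fun _ => 1) fun y => Multiplicative.ofAdd (a y)) :=
      (div_mul_cancel _ _).symm
    rw [h5]
    refine Subgroup.mul_mem_sup ⟨?_, trivial⟩ ⟨_, rfl⟩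
    rw [Prod.fst_div]
    refine (hC0 _).2 ⟨C.div_mem hx2 (hle ⟨_, rfl⟩).1, fun y => ?_⟩
    rw [map_div, h4, div_self']
  have h6 : (C0.prod ⊤ ⊔ (phi u p).range).relIndex (C.prod ⊤) ≠ 0 := fun h0 =>
    hkrel (Nat.eq_zero_of_zero_dvd (h0 ▸ Subgroup.relIndex_dvd_of_le_left (C.prod ⊤) hsub))
  have h7 : (phi u p).range.relIndex (C0.prod ⊤ ⊔ (phi u p).range) ≠ 0 := by
    rw [Subgroup.relIndex_sup_right]
    exact fun h0 => hW (Nat.eq_zero_of_zero_dvd
      (h0 ▸ Subgroup.relIndex_dvd_of_le_left (C0.prod ⊤) hWle))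
  rw [← Subgroup.relIndex_mul_relIndex _ _ _ le_sup_right (sup_le hle0 hle)]
  exact mul_ne_zero h7 h6

end

end Pool.Agent.H19.RQ
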