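import Pool.Agent.H95.RQ.Targets2
import Pool.Agent.H19.RQ.PHI

/-!
# (SUN) the group of `T`-units contains a permutation module of finite index
-/

set_option autoImplicit false

open NumberField NumberField.InfinitePlace IsDedekindDomain

namespace Pool.Agent.H19.RQ

open Pool.Agent.H95.RQ Pool.Agent.H28.RC

section

variable {E : Type} [Field E] [NumberField E]

/-- the valuation on the units of the field -/
noncomputable def vQ (Q : HeightOneSpectrum (𝓞 E)) : Eˣ →* Multiplicative ℤ :=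
  Q.valuationOfNeZero

lemma vQ_eq_one (Q : HeightOneSpectrum (𝓞 E)) (x : Eˣ) :
    vQ Q x = 1 ↔ Q.valuation E (x : E) = 1 := by
  rw [← HeightOneSpectrum.valuationOfNeZero_eq Q x]
  exact (WithZero.coe_inj (a := vQ Q x) (b := 1)).symm

lemma mem_U0 (x : Eˣ) : x ∈ U0 E ↔ ∀ Q : HeightOneSpectrum (𝓞 E), Q.valuation E (x : E) = 1 := by
  constructor
  · rintro ⟨a, rfl⟩ Q
    have h1 : Q.valuation E (algebraMap (𝓞 E) E (a : 𝓞 E)) ≤ 1 := Q.valuation_le_one _
    have h2 : Q.valuation E (algebraMap (𝓞 E) E ((a⁻¹ : (𝓞 E)ˣ) : 𝓞 E)) ≤ 1 :=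
      Q.valuation_le_one _
    have h3 : Q.valuation E (algebraMap (𝓞 E) E (a : 𝓞 E)) *
        Q.valuation E (algebraMap (𝓞 E) E ((a⁻¹ : (𝓞 E)ˣ) : 𝓞 E)) = 1 := by
      rw [← map_mul, ← map_mul, Units.mul_inv, map_one, map_one]
    refine le_antisymm h1 ?_
    calc (1 : WithZero (Multiplicative ℤ)) = _ := h3.symm
      _ ≤ Q.valuation E (algebraMap (𝓞 E) E (a : 𝓞 E)) * 1 := mul_le_mul_right h2 _
      _ = _ := mul_one _
  · intro h
    obtain ⟨a, ha⟩ := HeightOneSpectrum.mem_integers_of_valuation_le_one E (x : E)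
      (fun Q => (h Q).le)
    obtain ⟨b, hb⟩ := HeightOneSpectrum.mem_integers_of_valuation_le_one E ((x⁻¹ : Eˣ) : E)
      (fun Q => by rw [Units.val_inv_eq_inv_val, map_inv₀, h Q, inv_one])
    have hab : a * b = 1 := by
      apply FaithfulSMul.algebraMap_injective (𝓞 E) E
      rw [map_mul, ha, hb, map_one, Units.mul_inv]
    refine ⟨Units.mk a b hab (by rw [mul_comm]; exact hab), ?_⟩
    ext1
    exact ha

end

theorem pf_SUN (h_VAL : T_VAL) (h_UNI : T_UNI) (h_UIN : T_UIN) (h_UFI : T_UFI) (h_PIW : T_PIW) :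
    T_SUN := by
  intro F E _ _ _ _ _ _ σ n T hn hσ
  classical
  obtain ⟨-, hV2, -, -, -, hV6, -⟩ := h_VAL F E
  obtain ⟨u, hu0, hus, hu1⟩ := h_UNI F E σ n hn hσ
  obtain ⟨p, hps, hp⟩ := h_PIW F E σ n hn hσ
  -- the primes above `T` are finite in number
  have hYfin : Finite {Q : HeightOneSpectrum (𝓞 E) // AbT E T Q} := by
    have h1 : ∀ P : HeightOneSpectrum (𝓞 F), Finite (Ab F E P) := fun P => (hV6 P).2.1
    have h2 : {Q : HeightOneSpectrum (𝓞 E) | AbT E T Q} ⊆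
        ⋃ P ∈ T, {Q : HeightOneSpectrum (𝓞 E) | Q.asIdeal.under (𝓞 F) = P.asIdeal} := by
      rintro Q ⟨P, hP, hQ⟩
      exact Set.mem_biUnion (Finset.mem_coe.2 hP) hQ
    exact ((T.finite_toSet.biUnion fun P _ => (h1 P : Set.Finite
      {Q : HeightOneSpectrum (𝓞 E) | Q.asIdeal.under (𝓞 F) = P.asIdeal})).subset h2).to_subtype
  let _ : Fintype {Q : HeightOneSpectrum (𝓞 E) // AbT E T Q} := Fintype.ofFinite _
  have hinv : ∀ Q : HeightOneSpectrum (𝓞 E), AbT E T (mp σ Q) ↔ AbT E T Q := by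
    intro Q
    unfold AbT
    simp only [hV2]
  let πY : Equiv.Perm {Q : HeightOneSpectrum (𝓞 E) // AbT E T Q} := (mp σ).subtypePerm hinv
  let πW : Equiv.Perm (InfinitePlace E) := MulAction.toPerm σ
  let p' : {Q : HeightOneSpectrum (𝓞 E) // AbT E T Q} → Eˣ := fun Q => p Q.1
  let v : {Q : HeightOneSpectrum (𝓞 E) // AbT E T Q} → Eˣ →* Multiplicative ℤ := fun Q => vQ Q.1
  have hvp : ∀ y, v y (p' y) ≠ 1 := by
    intro y h
    exact (hp y.1).1.ne ((vQ_eq_one _ _).1 h)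
  have hvp' : ∀ y y', y' ≠ y → v y' (p' y) = 1 := by
    intro y y' hne
    exact (vQ_eq_one _ _).2 ((hp y.1).2 y'.1 fun h => hne (Subtype.ext h))
  have hC0 : ∀ x, x ∈ U0 E ↔ x ∈ UE E T ∧ ∀ y, v y x = 1 := by
    intro x
    rw [mem_U0]
    constructor
    · exact fun h => ⟨fun Q _ => h Q, fun y => (vQ_eq_one _ _).2 (h y.1)⟩
    · rintro ⟨h1, h2⟩ Q
      by_cases hQ : AbT E T Q
      · exact (vQ_eq_one _ _).1 (h2 ⟨Q, hQ⟩)
      · exact h1 Q hQ
  have hpC : ∀ y, p' y ∈ UE E T := by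
    intro y Q hQ
    refine (hp y.1).2 Q ?_
    rintro rfl
    exact hQ y.2
  have hWinj : Function.Injective (phiW u) := by
    rw [injective_iff_map_eq_one]
    intro c hc
    have h1 := congrArg Prod.fst hc
    have h2 := congrArg Prod.snd hc
    have h3 : ∑ w, (c w).toAdd = 0 := by
      have h4 : (∏ w, c w).toAdd = 0 := congrArg Multiplicative.toAdd h2
      rwa [toAdd_prod] at h4
    have h5 := h_UIN E u hu0 hu1 (fun w => (c w).toAdd) h1 h3
    funext w
    exact Multiplicative.toAdd.injective (congrFun h5 w)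
  have hWle : (phiW u).range ≤ (U0 E).prod ⊤ := by
    rintro _ ⟨c, rfl⟩
    exact ⟨(U0 E).prod_mem fun w _ => (U0 E).zpow_mem (hu0 w) _, trivial⟩
  have hWidx := h_UFI E (phiW u) hWinj hWle
  have hidx := phi_idx (u := u) (p := p') (v := v) (U0 E) (UE E T) hC0 hu0 hpC hvp hvp' hWidx
  refine ⟨Equiv.sumCongr πW πY, phi u p', fun w => rfl, fun Q => ⟨(hinv Q.1).2 Q.2, rfl⟩,
    phi_inj (v := v) (fun y w => ((hC0 _).1 (hu0 w)).2 y) hvp hvp' hWinj, fun a => ?_,
    hidx.1, hidx.2⟩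
  exact phi_equi (u := u) (p := p') πW πY (us σ) hus (fun y => hps y.1) a

end Pool.Agent.H19.RQ
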