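import Pool.Agent.H95.RQ.Targets2

/-!
# (VAL) valuations and the Galois action
-/

set_option autoImplicit false

open NumberField NumberField.InfinitePlace IsDedekindDomain

namespace Pool.Agent.H19.RQ

open Pool.Agent.H95.RQ Pool.Agent.H28.RC

section

variable {F E : Type} [Field F] [NumberField F] [Field E] [NumberField E] [Algebra F E]

omit [NumberField F] [NumberField E] in
lemma mem_mp (σ : E ≃ₐ[F] E) (Q : HeightOneSpectrum (𝓞 E)) (x : 𝓞 E) :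
    x ∈ (mp σ Q).asIdeal ↔ σ⁻¹ • x ∈ Q.asIdeal := Iff.rfl

lemma mp_mul (σ τ : E ≃ₐ[F] E) : mp (σ * τ) = mp σ * mp τ := by
  ext Q x
  rw [mem_mp, mul_inv_rev, mul_smul]
  rfl

lemma mp_one : mp (1 : E ≃ₐ[F] E) = 1 := by
  ext Q x
  rw [mem_mp, inv_one, one_smul]
  rfl

lemma mp_pow (σ : E ≃ₐ[F] E) (k : ℕ) : mp (σ ^ k) = mp σ ^ k := by
  induction k with
  | zero => rw [pow_zero, pow_zero, mp_one]
  | succ k ih => rw [pow_succ, pow_succ, mp_mul, ih]

lemma mp_inv_mp (σ : E ≃ₐ[F] E) (Q : HeightOneSpectrum (𝓞 E)) : mp σ⁻¹ (mp σ Q) = Q := by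
  have h := mp_mul σ⁻¹ σ
  rw [inv_mul_cancel, mp_one] at h
  exact (congrArg (fun e => e Q) h).symm

omit [NumberField F] [NumberField E] in
lemma mp_asIdeal (σ : E ≃ₐ[F] E) (Q : HeightOneSpectrum (𝓞 E)) :
    (mp σ Q).asIdeal = Q.asIdeal.map (MulSemiringAction.toRingEquiv (E ≃ₐ[F] E) (𝓞 E) σ) := by
  rw [← Ideal.comap_symm]
  rfl

lemma pow_mem_mp (σ : E ≃ₐ[F] E) (Q : HeightOneSpectrum (𝓞 E)) (n : ℕ) {x : 𝓞 E}
    (hx : x ∈ Q.asIdeal ^ n) : σ • x ∈ (mp σ Q).asIdeal ^ n := by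
  rw [mp_asIdeal, ← Ideal.map_pow]
  exact Ideal.mem_map_of_mem (MulSemiringAction.toRingEquiv (E ≃ₐ[F] E) (𝓞 E) σ) hx

lemma intVal_le (σ : E ≃ₐ[F] E) (Q : HeightOneSpectrum (𝓞 E)) (x : 𝓞 E) :
    (mp σ Q).intValuation (σ • x) ≤ Q.intValuation x := by
  by_cases hx : x = 0
  · rw [hx, smul_zero, map_zero, map_zero]
  · rw [Q.intValuation_eq_exp_neg_multiplicity hx, HeightOneSpectrum.intValuation_le_pow_iff_mem]
    refine pow_mem_mp σ Q _ ?_
    rw [← HeightOneSpectrum.intValuation_le_pow_iff_mem,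
      Q.intValuation_eq_exp_neg_multiplicity hx]

lemma intVal_mp (σ : E ≃ₐ[F] E) (Q : HeightOneSpectrum (𝓞 E)) (x : 𝓞 E) :
    (mp σ Q).intValuation (σ • x) = Q.intValuation x := by
  refine le_antisymm (intVal_le σ Q x) ?_
  have h := intVal_le σ⁻¹ (mp σ Q) (σ • x)
  rwa [mp_inv_mp, inv_smul_smul] at h

lemma val_mp (σ : E ≃ₐ[F] E) (Q : HeightOneSpectrum (𝓞 E)) (x : E) :
    (mp σ Q).valuation E (σ x) = Q.valuation E x := by
  obtain ⟨a, b, hb, rfl⟩ := IsFractionRing.div_surjective (A := 𝓞 E) x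
  have h1 : ∀ a : 𝓞 E, (mp σ Q).valuation E (σ (algebraMap (𝓞 E) E a)) =
      Q.valuation E (algebraMap (𝓞 E) E a) := by
    intro a
    have h2 : σ (algebraMap (𝓞 E) E a) = algebraMap (𝓞 E) E (σ • a) := rfl
    rw [h2, HeightOneSpectrum.valuation_of_algebraMap, HeightOneSpectrum.valuation_of_algebraMap,
      intVal_mp]
  rw [map_div₀ σ, map_div₀, map_div₀, h1, h1]

lemma under_mp (σ : E ≃ₐ[F] E) (Q : HeightOneSpectrum (𝓞 E)) :
    (mp σ Q).asIdeal.under (𝓞 F) = Q.asIdeal.under (𝓞 F) := by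
  ext a
  rw [Ideal.mem_comap, Ideal.mem_comap, mem_mp]
  have h : σ⁻¹ • algebraMap (𝓞 F) (𝓞 E) a = algebraMap (𝓞 F) (𝓞 E) a := by
    apply RingOfIntegers.ext
    have h1 : ((σ⁻¹ • algebraMap (𝓞 F) (𝓞 E) a : 𝓞 E) : E) =
        σ⁻¹ (algebraMap F E (a : F)) := rfl
    rw [h1, AlgEquiv.commutes]
    rfl
  rw [h]

end

/-- the primes above `P` -/
noncomputable def abEquiv (F E : Type) [Field F] [NumberField F] [Field E] [NumberField E]
    [Algebra F E] (P : HeightOneSpectrum (𝓞 F)) :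
    Ab F E P ≃ Ideal.primesOver P.asIdeal (𝓞 E) where
  toFun Q := ⟨Q.1.asIdeal, Q.1.isPrime, ⟨Q.2.symm⟩⟩
  invFun I := ⟨⟨I.1, I.2.1, by
    have := I.2.2
    exact Ideal.ne_bot_of_liesOver_of_ne_bot P.ne_bot I.1⟩, I.2.2.over.symm⟩
  left_inv _ := rfl
  right_inv _ := rfl

theorem pf_VAL : T_VAL := by
  intro F E _ _ _ _ _ _
  refine ⟨val_mp, under_mp, mp_pow, fun Q Q' h => ?_, fun Q => ?_, fun P => ?_, fun P Q => ?_⟩
  · have hQ := Q.isPrime
    have hQ' := Q'.isPrime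
    obtain ⟨g, hg⟩ := Algebra.IsInvariant.exists_smul_of_under_eq (𝓞 F) (𝓞 E) (E ≃ₐ[F] E)
      Q.asIdeal Q'.asIdeal h
    refine ⟨g, ?_⟩
    ext x
    rw [mem_mp, hg, Ideal.mem_pointwise_smul_iff_inv_smul_mem]
  · have hQ := Q.isPrime
    exact ⟨⟨Q.asIdeal.under (𝓞 F), inferInstance, Ideal.under_ne_bot (𝓞 F) Q.ne_bot⟩, rfl⟩
  · have hP := P.isPrime
    have hPm := P.isMaximal
    have hfin : (Ideal.primesOver P.asIdeal (𝓞 E)).Finite :=
      IsDedekindDomain.primesOver_finite P.asIdeal (𝓞 E)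
    have hcard : Nat.card (Ab F E P) = (Ideal.primesOver P.asIdeal (𝓞 E)).ncard :=
      Nat.card_congr (abEquiv F E P)
    have hmul := Ideal.ncard_primesOver_mul_ramificationIdxIn_mul_inertiaDegIn P.asIdeal (𝓞 E)
      (E ≃ₐ[F] E)
    have hfd : FiniteDimensional F E := Module.Finite.of_restrictScalars_finite ℚ F E
    rw [IsGalois.card_aut_eq_finrank] at hmul
    have hpos : (Ideal.primesOver P.asIdeal (𝓞 E)).ncard ≠ 0 := by
      intro h0
      rw [h0, zero_mul] at hmul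
      exact (Module.finrank_pos (R := F) (M := E)).ne hmul
    refine ⟨?_, ?_, ?_⟩
    · by_contra hne
      rw [not_nonempty_iff] at hne
      exact hpos (by rw [← hcard, Nat.card_of_isEmpty])
    · have := hfin.to_subtype
      exact Finite.of_equiv _ (abEquiv F E P).symm
    · rw [hcard]
      exact ⟨_, hmul.symm⟩
  · have hL : Q.1.asIdeal.LiesOver P.asIdeal := ⟨Q.2.symm⟩
    have hQ := Q.1.isPrime
    refine ⟨P.asIdeal.ramificationIdx' Q.1.asIdeal, Nat.one_le_iff_ne_zero.2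
      (Ideal.IsDedekindDomain.ramificationIdx'_ne_zero_of_liesOver Q.1.asIdeal P.ne_bot),
      fun x => ?_⟩
    exact (HeightOneSpectrum.valuation_liesOver E P Q.1 x).symm

end Pool.Agent.H19.RQ
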